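import Pool.Agent.Helper38.WM.St

set_option autoImplicit false

namespace Pool.Agent.Helper7.WM

open Pool.Agent.Helper38.WM

variable {p : ℕ} [Fact p.Prime] {X : Type} [Fintype X] [DecidableEq X]

theorem d_one (Φ : Fox p X) (x : X) : Φ.d x 1 = 0 := by
  have h := Φ.leib x 1 1
  have h1 : Φ.ε 1 = 1 := map_one Φ.ε
  rw [mul_one, mul_one, h1, one_smul] at h
  have h2 : Φ.d x 1 + 0 = Φ.d x 1 + Φ.d x 1 := by rw [add_zero]; exact h
  exact (add_left_cancel h2).symm

theorem d_alg (Φ : Fox p X) (x : X) (c : ZMod p) : Φ.d x (algebraMap (ZMod p) _ c) = 0 := by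
  rw [Algebra.algebraMap_eq_smul_one, map_smul, d_one, smul_zero]

theorem eps_sub (Φ : Fox p X) (g : FreeGroup X) : Φ.ε (el p g - 1) = 0 := by
  rw [map_sub, map_one]
  have := Φ.eps_el g
  rw [this, sub_self]

theorem d_mul_of_eps (Φ : Fox p X) (x : X) {f : GA p (FreeGroup X)} (hf : Φ.ε f = 0)
    (g : GA p (FreeGroup X)) : Φ.d x (f * g) = Φ.d x f * g := by
  rw [Φ.leib, hf, zero_smul, add_zero]

/-- The map whose kernel is `K I`. -/
noncomputable def Psi (Φ : Fox p X) (I : Submodule (ZMod p) (GA p (FreeGroup X))) :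
    GA p (FreeGroup X) →ₗ[ZMod p] ZMod p × (X → GA p (FreeGroup X) ⧸ I) :=
  LinearMap.prod Φ.ε.toLinearMap (LinearMap.pi fun x => I.mkQ ∘ₗ Φ.d x)

theorem mem_K (Φ : Fox p X) (I : Submodule (ZMod p) (GA p (FreeGroup X)))
    (f : GA p (FreeGroup X)) : f ∈ Φ.K I ↔ Φ.ε f = 0 ∧ ∀ x, Φ.d x f ∈ I := by
  unfold Fox.K
  rw [Submodule.mem_inf, LinearMap.mem_ker, Submodule.mem_iInf]
  exact Iff.rfl

theorem ker_Psi (Φ : Fox p X) (I : Submodule (ZMod p) (GA p (FreeGroup X))) :
    LinearMap.ker (Psi Φ I) = Φ.K I := by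
  ext f
  rw [mem_K, LinearMap.mem_ker]
  constructor
  · intro h
    have h1 : Φ.ε f = 0 := congrArg Prod.fst h
    have h2 : (fun x => I.mkQ (Φ.d x f)) = 0 := congrArg Prod.snd h
    refine ⟨h1, fun x => ?_⟩
    have h3 : I.mkQ (Φ.d x f) = 0 := congrFun h2 x
    rwa [Submodule.mkQ_apply, Submodule.Quotient.mk_eq_zero] at h3
  · rintro ⟨h1, h2⟩
    refine Prod.ext h1 ?_
    funext x
    show I.mkQ (Φ.d x f) = 0
    rw [Submodule.mkQ_apply, Submodule.Quotient.mk_eq_zero]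
    exact h2 x

theorem Psi_surj (Φ : Fox p X) (I : Submodule (ZMod p) (GA p (FreeGroup X))) :
    Function.Surjective (Psi Φ I) := by
  rintro ⟨c, v⟩
  have hv : ∀ x, ∃ u, I.mkQ u = v x := fun x => Submodule.mkQ_surjective I (v x)
  choose u hu using hv
  refine ⟨algebraMap (ZMod p) _ c + ∑ x, (el p (FreeGroup.of x) - 1) * u x, ?_⟩
  refine Prod.ext ?_ ?_
  · show Φ.ε (algebraMap (ZMod p) _ c + ∑ x, (el p (FreeGroup.of x) - 1) * u x) = c
    rw [map_add, map_sum, AlgHom.commutes]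
    have : ∀ x, Φ.ε ((el p (FreeGroup.of x) - 1) * u x) = 0 := by
      intro x
      rw [map_mul, eps_sub, zero_mul]
    rw [Finset.sum_congr rfl fun x _ => this x, Finset.sum_const_zero, add_zero]
    rfl
  · funext y
    show I.mkQ (Φ.d y (algebraMap (ZMod p) _ c + ∑ x, (el p (FreeGroup.of x) - 1) * u x)) = v y
    rw [map_add, d_alg, zero_add, map_sum]
    have : ∀ x, Φ.d y ((el p (FreeGroup.of x) - 1) * u x) = if y = x then u x else 0 := by
      intro x
      rw [d_mul_of_eps Φ y (eps_sub Φ _), Φ.d_of]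
      split_ifs
      · rw [one_mul]
      · rw [zero_mul]
    rw [Finset.sum_congr rfl fun x _ => this x, Finset.sum_ite_eq, if_pos (Finset.mem_univ _), hu]

theorem finrank_K (Φ : Fox p X) (I : Submodule (ZMod p) (GA p (FreeGroup X)))
    (hI : Module.Finite (ZMod p) (GA p (FreeGroup X) ⧸ I)) :
    Module.Finite (ZMod p) (GA p (FreeGroup X) ⧸ Φ.K I) ∧
    Module.finrank (ZMod p) (GA p (FreeGroup X) ⧸ Φ.K I) =
      1 + Fintype.card X * Module.finrank (ZMod p) (GA p (FreeGroup X) ⧸ I) := by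
  have e : (GA p (FreeGroup X) ⧸ Φ.K I) ≃ₗ[ZMod p] ZMod p × (X → GA p (FreeGroup X) ⧸ I) := by
    rw [← ker_Psi]
    exact LinearMap.quotKerEquivOfSurjective _ (Psi_surj Φ I)
  refine ⟨Module.Finite.equiv e.symm, ?_⟩
  rw [e.finrank_eq, Module.finrank_prod, Module.finrank_self, Module.finrank_pi_fintype,
    Finset.sum_const, Finset.card_univ, smul_eq_mul]

theorem aug_le (Φ : Fox p X) : Aug p (FreeGroup X) ≤ LinearMap.ker Φ.ε.toLinearMap := by
  unfold Aug
  rw [Submodule.span_le]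
  rintro _ ⟨g, rfl⟩
  exact eps_sub Φ g

theorem aug_pow_le {ι : Type} (Φ : Fox p X) (r : ι → FreeGroup X) (F : Filt p (FreeGroup X))
    (hF : ∀ n, F.J n = Φ.J r n) (m : ℕ) : Aug p (FreeGroup X) ^ m ≤ F.J m := by
  have h1 : Aug p (FreeGroup X) ≤ F.J 1 := by
    rw [hF 1]
    show Aug p (FreeGroup X) ≤ Φ.K (Fox.J Φ r 0) ⊔ _
    refine le_trans ?_ le_sup_left
    intro f hf
    rw [mem_K]
    exact ⟨aug_le Φ hf, fun x => Submodule.mem_top⟩
  induction m with
  | zero => rw [F.top]; exact le_top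
  | succ m ih =>
    rw [pow_succ]
    exact Submodule.mul_le.mpr fun a ha b hb => F.mul_mem (ih ha) (h1 hb)

theorem d_aug {ι : Type} (Φ : Fox p X) (r : ι → FreeGroup X) (F : Filt p (FreeGroup X))
    (hF : ∀ n, F.J n = Φ.J r n) (m : ℕ) (x : X) :
    ∀ f ∈ Aug p (FreeGroup X) ^ (m + 1), Φ.d x f ∈ F.J m := by
  intro f hf
  rw [pow_succ'] at hf
  refine Submodule.mul_induction_on hf ?_ ?_
  · intro a ha b hb
    rw [d_mul_of_eps Φ x (aug_le Φ ha)]
    exact F.mul_left _ (aug_pow_le Φ r F hF m hb)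
  · intro a b ha hb
    rw [map_add]
    exact Submodule.add_mem _ ha hb

theorem finrank_biSup_le {M ι : Type*} [AddCommGroup M] [Module (ZMod p) M]
    [Module.Finite (ZMod p) M] (W : ι → Submodule (ZMod p) M) (I : Finset ι) :
    Module.finrank (ZMod p) (⨆ i ∈ I, W i : Submodule (ZMod p) M) ≤
      ∑ i ∈ I, Module.finrank (ZMod p) (W i) := by
  classical
  induction I using Finset.induction_on with
  | empty => simp
  | insert a s ha ih =>
    rw [Finset.iSup_insert, Finset.sum_insert ha]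
    have := Submodule.finrank_add_le_finrank_add_finrank (W a) (⨆ i ∈ s, W i)
    omega

theorem hGSI : StGSI := by
  intro p _ X _ _ Φ ι r e F hF he hr n I hI
  have hfin := F.fin
  obtain ⟨hKf, hKr⟩ := finrank_K Φ (F.J n) (hfin n)
  have hsucc : F.J (n + 1) = Φ.K (F.J n) ⊔
      ⨆ i, LinearMap.range (LinearMap.mulLeft (ZMod p) (el p (r i) - 1)) := by
    rw [hF (n + 1), hF n]
    rfl
  have hmem : ∀ i, F.J (n + 1 - e i) ≤
      (Φ.K (F.J n)).comap (LinearMap.mulLeft (ZMod p) (el p (r i) - 1)) := by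
    intro i u hu
    rw [Submodule.mem_comap, LinearMap.mulLeft_apply, mem_K]
    refine ⟨by rw [map_mul, eps_sub, zero_mul], fun x => ?_⟩
    rw [d_mul_of_eps Φ x (eps_sub Φ _)]
    have h1 : Φ.d x (el p (r i) - 1) ∈ F.J (e i - 1) := by
      apply d_aug Φ r F hF (e i - 1) x
      have := he i
      rw [Nat.sub_add_cancel this]
      exact hr i
    have h2 := F.mul_mem h1 hu
    have := he i
    exact F.anti (by omega : n ≤ e i - 1 + (n + 1 - e i)) h2
  let φ : ∀ i, (GA p (FreeGroup X) ⧸ F.J (n + 1 - e i)) →ₗ[ZMod p] (GA p (FreeGroup X) ⧸ Φ.K (F.J n)) :=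
    fun i => Submodule.mapQ _ _ (LinearMap.mulLeft (ZMod p) (el p (r i) - 1)) (hmem i)
  have hrange : ∀ i, (LinearMap.range (LinearMap.mulLeft (ZMod p) (el p (r i) - 1))).map
      (Φ.K (F.J n)).mkQ = LinearMap.range (φ i) := by
    intro i
    ext z
    constructor
    · rintro ⟨_, ⟨u, rfl⟩, rfl⟩
      exact ⟨(F.J (n + 1 - e i)).mkQ u, rfl⟩
    · rintro ⟨w, rfl⟩
      obtain ⟨u, rfl⟩ := Submodule.mkQ_surjective _ w
      exact ⟨_, ⟨u, rfl⟩, rfl⟩
  have hle : (F.J (n + 1)).map (Φ.K (F.J n)).mkQ ≤ ⨆ i ∈ I, LinearMap.range (φ i) := by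
    rw [hsucc, Submodule.map_sup, Submodule.map_iSup]
    refine sup_le ?_ (iSup_le fun i => ?_)
    · rw [Submodule.mkQ_map_self]
      exact bot_le
    · rw [hrange]
      by_cases hi : i ∈ I
      · exact le_iSup₂_of_le i hi le_rfl
      · have h3 : n + 1 - e i = 0 := by
          have := mt (hI i) hi
          omega
        rintro _ ⟨w, rfl⟩
        obtain ⟨u, rfl⟩ := Submodule.mkQ_surjective _ w
        have h4 : u ∈ F.J (n + 1 - e i) := by rw [h3, F.top]; trivial
        have h5 : (F.J (n + 1 - e i)).mkQ u = 0 := by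
          rw [Submodule.mkQ_apply, Submodule.Quotient.mk_eq_zero]; exact h4
        rw [h5, map_zero]
        exact Submodule.zero_mem _
  have h6 : Module.finrank (ZMod p) ((F.J (n + 1)).map (Φ.K (F.J n)).mkQ) ≤
      ∑ i ∈ I, Module.finrank (ZMod p) (GA p (FreeGroup X) ⧸ F.J (n + 1 - e i)) := by
    refine le_trans (Submodule.finrank_mono hle) (le_trans (finrank_biSup_le _ I) ?_)
    refine Finset.sum_le_sum fun i _ => ?_
    have := hfin (n + 1 - e i)
    exact LinearMap.finrank_range_le (φ i)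
  have hKle : Φ.K (F.J n) ≤ F.J (n + 1) := by rw [hsucc]; exact le_sup_left
  have h7 := Submodule.finrank_quotient_add_finrank ((F.J (n + 1)).map (Φ.K (F.J n)).mkQ)
  have h8 := (Submodule.quotientQuotientEquivQuotient (Φ.K (F.J n)) (F.J (n + 1)) hKle).finrank_eq
  rw [h8, hKr] at h7
  omega

end Pool.Agent.Helper7.WM
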